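import Pool.Agent.R640.GE.Dih

/-!
# The electrification of a graph product is a quasi-line iff the group is virtually cyclic
(MP_7fb950_al, full positive answer)

Coordinates with values in the vertex groups at the cliques of the Cayley graph (cosets of star
subgroups) are well defined.  A word whose consecutive letters do not commute crosses pairwise
nested cliques; a generator of the electrification avoids some vertex `w` of the non-central part
of the graph, hence its segment cannot cross a clique before and one after a letter of type `w`.
So a block of `N` periods of a closed walk through the complement graph costs at least `N`
generators.  If the non-central part has connected complement, is in no minsquare subgraph and is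
not a pair of vertices of order two, this gives three rays such that the end of each is far from
the two others, and the electrification is not quasi-isometric to the line.  If the complement is
disconnected then some minsquare subgraph contains the whole non-central part and the
electrification is bounded.
-/

set_option autoImplicit false

namespace Pool.Agent.Results.MP_7fb950_al.ElectrificationQuasiLine

open Pool.R640.GE

/-- For a graph product of nontrivial finite groups over a finite graph the electrification is a
quasi-line if and only if the graph product is infinite virtually cyclic, if and only if the graph
has exactly one pair of non-adjacent vertices and both their groups have order two. -/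
theorem result {V : Type*} [Finite V] (Γ : SimpleGraph V) (G : V → Type*) [∀ v, Group (G v)]
    [∀ v, Finite (G v)] [∀ v, Nontrivial (G v)] :
    (QuasiLine (elec Γ G) ↔ Infinite (GP Γ G) ∧ VirtCyclic (GP Γ G)) ∧
    (QuasiLine (elec Γ G) ↔ ∃ a b : V, a ≠ b ∧ ¬ Γ.Adj a b ∧ Nat.card (G a) = 2 ∧
      Nat.card (G b) = 2 ∧
      ∀ x y : V, x ≠ y → ¬ Γ.Adj x y → (x = a ∧ y = b) ∨ (x = b ∧ y = a)) := by
  refine ⟨⟨fun h => (cls_all (ql_cls h)).2, fun h => ?_⟩, ⟨ql_cls, fun h => (cls_all h).1⟩⟩
  exact (cls_all (vc_cls h.1 h.2)).1

end Pool.Agent.Results.MP_7fb950_al.ElectrificationQuasiLine
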